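import Pool.Agent.Y374.EU.Core

set_option autoImplicit false
set_option linter.unusedSectionVars false

/-!
# Euclidean lattices: all integral lattices embed, one maximal lattice, class number one

`R` is a Dedekind domain with finite quotients (for example a Hasse domain, of any characteristic),
`K` its fraction field, `q(x) = ∑ a i j * x i * x j` a quadratic form on `K ^ n`, possibly isotropic
or degenerate, and `L` an `R`-lattice in `K ^ n`, not necessarily free, with `q(L) ⊆ R`. The lattice
is Euclidean if for every `x` in `K ^ n` outside `L` there is `y` in `L` with `0 < |q(x - y)| < 1`.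
For `L = R ^ n` and anisotropic `q` this is the definition of the problem. For Euclidean `L`:

1. every finitely generated `R`-module `M ⊆ K ^ n` of any rank with `q(M) ⊆ R` is carried into `L` by
   an isometry of the quadratic space `(K ^ n, q)`;
2. `L` is maximal among the integral `R`-modules, and every maximal integral lattice is the image
   of `L` under an isometry of the space;
3. every lattice in the genus of `L` is the image of `L` under an isometry of the space.

In particular (the question) anisotropic Euclidean forms have class number one.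

Definitions from `Pool.Agent.H723R3.EuclidDefs` (starting library): `formVal a x` is the value
`∑ a i j * x i * x j`; `fracNorm R K` is the norm `|a / b| = #(R / aR) / #(R / bR)`; `stdLattice R n K`
is `R ^ n`; `localLattice v M` is the completion `M_v`; `Isometric`, `IsAnisotropic`, `IsEuclidean`,
`InGenus` and `HasClassNumberOne` (the class number of `R ^ n` is one) are as in the problem.
`Pool.Agent.Y374.EU.InGenusOf a L M`: `M` is a finitely generated `R`-module which spans `K ^ n`, and
`M_v` is isometric to `L_v` for every maximal ideal `v` of `R`.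
-/

namespace Pool.Agent.Results.MP_14e93c_nt.EuclideanLattices

open IsDedekindDomain Pool.Agent.H723R3 Pool.Agent.Y374.EU

section Defs

variable {R : Type*} [CommRing R] {K : Type*} [Field K] [Algebra R K] {n : ℕ}

/-- the values of the form on `M` lie in `R` -/
def IsIntegral (a : Matrix (Fin n) (Fin n) K) (M : Submodule R (Fin n → K)) : Prop :=
  ∀ x ∈ M, ∃ r : R, algebraMap R K r = formVal a x

/-- `g` is an isometry of the quadratic space `(K ^ n, q)` -/
def IsIsometry (a : Matrix (Fin n) (Fin n) K) (g : (Fin n → K) ≃ₗ[K] (Fin n → K)) : Prop :=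
  ∀ x, formVal a (g x) = formVal a x

/-- `L` is an integral Euclidean lattice of the quadratic space `(K ^ n, q)` -/
structure EuclideanLattice [IsDomain R] [IsFractionRing R K] (a : Matrix (Fin n) (Fin n) K)
    (L : Submodule R (Fin n → K)) : Prop where
  /-- `L` is finitely generated. -/
  fg : L.FG
  /-- `L` spans `K ^ n`. -/
  span_eq_top : Submodule.span K (L : Set (Fin n → K)) = ⊤
  /-- The values on `L` lie in `R`. -/
  integral : IsIntegral a L
  /-- The Euclidean condition. -/
  euclidean : ∀ x : Fin n → K, x ∉ L →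
    ∃ y ∈ L, formVal a (x - y) ≠ 0 ∧ fracNorm R K (formVal a (x - y)) < 1

end Defs

variable {R : Type*} [CommRing R] [IsDedekindDomain R] [Ring.HasFiniteQuotients R]
  {K : Type*} [Field K] [Algebra R K] [IsFractionRing R K] {n : ℕ}

theorem formVal_baseChange (a : Matrix (Fin n) (Fin n) R) {A : Type*} [CommRing A] [Algebra R A]
    [Algebra K A] [IsScalarTower R K A] (x : Fin n → A) :
    formVal (a.map (algebraMap R K)) x = formVal a x := by
  simp only [formVal, Matrix.map_apply, ← IsScalarTower.algebraMap_apply]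

theorem EuclideanLattice.heucl {a : Matrix (Fin n) (Fin n) K} {L : Submodule R (Fin n → K)}
    (h : EuclideanLattice a L) : ∀ x : Fin n → K, x ∉ L →
      ∃ y ∈ L, formQ a K (x - y) ≠ 0 ∧ fracNorm R K (formQ a K (x - y)) < 1 := by
  intro x hx
  obtain ⟨y, hy, h1, h2⟩ := h.euclidean x hx
  exact ⟨y, hy, by rw [formQ_apply]; exact h1, by rw [formQ_apply]; exact h2⟩

theorem IsIntegral.on {a : Matrix (Fin n) (Fin n) K} {M : Submodule R (Fin n → K)}
    (h : IsIntegral a M) : IntegralOn (formQ a K) M := by
  intro x hx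
  rw [formQ_apply]
  exact h x hx

theorem embeds {a : Matrix (Fin n) (Fin n) K} {L : Submodule R (Fin n → K)}
    (h : EuclideanLattice a L) {M : Submodule R (Fin n → K)} (hM : M.FG) (hi : IsIntegral a M) :
    ∃ g, IsIsometry a g ∧ ∀ x ∈ M, g x ∈ L := by
  have hLfin : ∀ x : Fin n → K, ordIdeal L x ≠ ⊥ := fun x => ordIdeal_ne_bot_of_span h.span_eq_top x
  obtain ⟨g, hg1, hg2⟩ := Pool.Agent.Y374.EU.exists_isometry_le h.integral.on hLfin h.heucl _ M hi.on
    (relIndex_ne_zero_of_fg hLfin M hM) rfl
  refine ⟨g, fun x => ?_, hg2⟩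
  have := hg1 x
  rwa [formQ_apply, formQ_apply] at this

theorem maximal {a : Matrix (Fin n) (Fin n) K} {L : Submodule R (Fin n → K)}
    (h : EuclideanLattice a L) {M : Submodule R (Fin n → K)} (hi : IsIntegral a M) (hLM : L ≤ M) :
    M = L := by
  refine le_antisymm (fun x hx => ?_) hLM
  by_contra hxL
  obtain ⟨y, hy, h1, h2⟩ := h.euclidean x hxL
  exact absurd h2 (not_lt.2 (norm_ge h1 (hi _ (M.sub_mem hx (hLM hy)))))

theorem unique_maximal {a : Matrix (Fin n) (Fin n) K} {L : Submodule R (Fin n → K)}
    (h : EuclideanLattice a L) {M : Submodule R (Fin n → K)} (hM : M.FG) (hi : IsIntegral a M)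
    (hmax : ∀ N : Submodule R (Fin n → K), N.FG → IsIntegral a N → M ≤ N → N = M) :
    ∃ g, IsIsometry a g ∧ ∀ x, g x ∈ L ↔ x ∈ M := by
  obtain ⟨g, hg1, hg2⟩ := embeds h hM hi
  refine ⟨g, hg1, fun x => ⟨fun hx => ?_, fun hx => hg2 x hx⟩⟩
  let N : Submodule R (Fin n → K) := L.map (g.symm.toLinearMap.restrictScalars R)
  have hN : N = M := by
    refine hmax N (h.fg.map _) ?_ ?_
    · rintro _ ⟨z, hz, rfl⟩
      obtain ⟨r, hr⟩ := h.integral z hz
      refine ⟨r, ?_⟩
      rw [hr]
      have h1 := hg1 (g.symm z)
      rw [LinearEquiv.apply_symm_apply] at h1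
      exact h1
    · intro z hz
      exact ⟨g z, hg2 z hz, g.symm_apply_apply z⟩
  rw [← hN]
  exact ⟨g x, hx, g.symm_apply_apply x⟩

theorem genus {a : Matrix (Fin n) (Fin n) K} {L : Submodule R (Fin n → K)}
    (h : EuclideanLattice a L) {M : Submodule R (Fin n → K)} (hM : InGenusOf a L M) :
    ∃ g, IsIsometry a g ∧ ∀ x, g x ∈ L ↔ x ∈ M := by
  obtain ⟨g, hg1, hg2⟩ := genus_eq h.span_eq_top h.integral.on h.heucl hM
  refine ⟨g, fun x => ?_, hg2⟩
  have := hg1 x
  rwa [formQ_apply, formQ_apply] at this

theorem std_fg : (stdLattice R n K).FG := by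
  classical
  have : stdLattice R n K =
      Submodule.span R (Set.range fun i : Fin n => (Pi.single i (1 : K) : Fin n → K)) := by
    apply le_antisymm
    · intro x hx
      choose r hr using hx
      have hx' : x = ∑ i, r i • (Pi.single i (1 : K) : Fin n → K) := by
        funext j
        rw [Finset.sum_apply, Finset.sum_eq_single j]
        · rw [Pi.smul_apply, Pi.single_eq_same, Algebra.smul_def, mul_one, hr j]
        · intro b _ hb
          rw [Pi.smul_apply, Pi.single_eq_of_ne (Ne.symm hb), smul_zero]
        · simp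
      rw [hx']
      exact Submodule.sum_mem _ fun i _ => Submodule.smul_mem _ _ (Submodule.subset_span ⟨i, rfl⟩)
    · rw [Submodule.span_le]
      rintro _ ⟨i, rfl⟩ j
      by_cases h : j = i
      · subst h
        exact ⟨1, by simp⟩
      · exact ⟨0, by simp [Pi.single_eq_of_ne h]⟩
  rw [this]
  exact Submodule.fg_span (Set.finite_range _)

theorem std_euclidean {a : Matrix (Fin n) (Fin n) R}
    (h : ∀ x : Fin n → K, x ∉ stdLattice R n K → ∃ y ∈ stdLattice R n K,
      formVal a (x - y) ≠ 0 ∧ fracNorm R K (formVal a (x - y)) < 1) :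
    EuclideanLattice (a.map (algebraMap R K)) (stdLattice R n K) := by
  refine ⟨std_fg, stdLattice_span, fun x hx => ?_, fun x hx => ?_⟩
  · rw [formVal_baseChange]
    have := integralOn_std (a := a) x hx
    rwa [formQ_apply] at this
  · obtain ⟨y, hy, h1, h2⟩ := h x hx
    exact ⟨y, hy, by rw [formVal_baseChange]; exact h1, by rw [formVal_baseChange]; exact h2⟩

theorem class_one {a : Matrix (Fin n) (Fin n) R}
    (h : EuclideanLattice (a.map (algebraMap R K)) (stdLattice R n K)) :
    HasClassNumberOne K a := by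
  intro M hM
  have hG : InGenusOf (a.map (algebraMap R K)) (stdLattice R n K) M := by
    refine ⟨hM.fg, hM.span_eq_top, fun v => ?_⟩
    obtain ⟨e, he⟩ := hM.locally_isometric v
    refine ⟨e, fun x => ?_⟩
    rw [formVal_baseChange, formVal_baseChange]
    exact he x
  obtain ⟨g, hg1, hg2⟩ := genus h hG
  have hmap : M.map ((g.restrictScalars R : (Fin n → K) ≃ₗ[R] (Fin n → K)) :
      (Fin n → K) →ₗ[R] (Fin n → K)) = stdLattice R n K := by
    ext x
    constructor
    · rintro ⟨z, hz, rfl⟩
      exact (hg2 z).2 hz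
    · intro hx
      refine ⟨g.symm x, (hg2 _).1 ?_, ?_⟩
      · rw [g.apply_symm_apply]; exact hx
      · exact g.apply_symm_apply x
  refine ⟨LinearEquiv.ofSubmodules (g.restrictScalars R) M (stdLattice R n K) hmap, fun x => ?_⟩
  have := hg1 (x : Fin n → K)
  rw [formVal_baseChange, formVal_baseChange] at this
  exact this

theorem result :
    (∀ (a : Matrix (Fin n) (Fin n) K) (L : Submodule R (Fin n → K)), EuclideanLattice a L →
      (∀ M : Submodule R (Fin n → K), M.FG → IsIntegral a M →
        ∃ g, IsIsometry a g ∧ ∀ x ∈ M, g x ∈ L) ∧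
      (∀ M : Submodule R (Fin n → K), IsIntegral a M → L ≤ M → M = L) ∧
      (∀ M : Submodule R (Fin n → K), M.FG → IsIntegral a M →
        (∀ N : Submodule R (Fin n → K), N.FG → IsIntegral a N → M ≤ N → N = M) →
        ∃ g, IsIsometry a g ∧ ∀ x, g x ∈ L ↔ x ∈ M) ∧
      (∀ M : Submodule R (Fin n → K), InGenusOf a L M →
        ∃ g, IsIsometry a g ∧ ∀ x, g x ∈ L ↔ x ∈ M)) ∧
    (∀ a : Matrix (Fin n) (Fin n) R,
      (∀ x : Fin n → K, x ∉ stdLattice R n K → ∃ y ∈ stdLattice R n K,
        formVal a (x - y) ≠ 0 ∧ fracNorm R K (formVal a (x - y)) < 1) →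
      EuclideanLattice (a.map (algebraMap R K)) (stdLattice R n K) ∧ HasClassNumberOne K a) ∧
    (∀ a : Matrix (Fin n) (Fin n) R, IsAnisotropic K a → IsEuclidean K a →
      EuclideanLattice (a.map (algebraMap R K)) (stdLattice R n K) ∧ HasClassNumberOne K a) := by
  have key : ∀ a : Matrix (Fin n) (Fin n) R,
      (∀ x : Fin n → K, x ∉ stdLattice R n K → ∃ y ∈ stdLattice R n K,
        formVal a (x - y) ≠ 0 ∧ fracNorm R K (formVal a (x - y)) < 1) →
      EuclideanLattice (a.map (algebraMap R K)) (stdLattice R n K) ∧ HasClassNumberOne K a :=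
    fun a h => ⟨std_euclidean h, class_one (std_euclidean h)⟩
  refine ⟨fun a L h => ⟨fun M hM hi => embeds h hM hi, fun M hi hLM => maximal h hi hLM,
    fun M hM hi hmax => unique_maximal h hM hi hmax, fun M hM => genus h hM⟩, key,
    fun a hanis heucl => key a fun x hx => ?_⟩
  obtain ⟨y, hy⟩ := heucl x
  have hymem : (fun i => algebraMap R K (y i)) ∈ stdLattice R n K := fun i => ⟨y i, rfl⟩
  refine ⟨_, hymem, hanis _ ?_, hy⟩
  intro h0
  rw [sub_eq_zero] at h0
  exact hx (h0 ▸ hymem)

end Pool.Agent.Results.MP_14e93c_nt.EuclideanLattices
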